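import Pool.Agent.Y121.AHS.Ext

/-!
# Galois actions on one algebra: definitions
-/

namespace Pool.Agent.N132.Lit

open Pool.Agent.Y121.AHS

variable (K L : Type) [Field K] [Field L] [Algebra K L] {A : Type} [Ring A] [Algebra K A]

/-- The element `x` is a linear combination with coefficients in `L` of elements `1 ⊗ a` such that
`a` has the property `p`. -/
def Comb (p : A → Prop) (x : Ext K L A) : Prop :=
  x ∈ Submodule.span L {y | ∃ a, p a ∧ extEm K L a = y}

/-- The dimension of the space spanned by the elements with the property `p`. -/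
noncomputable def spanDim (p : Ext K L A → Prop) : ℕ := Set.finrank L {x | p x}

/-- The element `x` is in the `i`-th graded piece. -/
def InDeg (gr : ℕ → Submodule K A) (i : ℕ) (x : Ext K L A) : Prop := x ∈ extSub K L (gr i)

/-- An action of the group `Γ` on the cohomology algebra `A` of a variety of dimension `n`, with
coefficients extended to `L`, which has the formal properties of a Galois action: `χ` is the
character on the Tate twist, `gr` the grading, `tr` the trace and `C j a` means that `a` is the class
of an algebraic cycle of codimension `j`. -/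
structure GalAct {Γ : Type} [Group Γ] (χ : Γ → L) (gr : ℕ → Submodule K A) (n : ℕ)
    (tr : A →ₗ[K] K) (C : ℕ → A → Prop) where
  /-- the action -/
  ρ : Γ → Ext K L A → Ext K L A
  one : ∀ x, ρ 1 x = x
  mul : ∀ g h x, ρ (g * h) x = ρ g (ρ h x)
  add : ∀ g x y, ρ g (x + y) = ρ g x + ρ g y
  smul : ∀ g l x, ρ g (extSm K L l x) = extSm K L l (ρ g x)
  prod : ∀ g x y, ρ g (extMul K L x y) = extMul K L (ρ g x) (ρ g y)
  deg : ∀ g i x, InDeg K L gr i x → InDeg K L gr i (ρ g x)
  trace : ∀ g x, extForm K L tr (ρ g x) = χ g ^ n * extForm K L tr x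
  conj : ∀ g j a, C j a → ∃ a', C j a' ∧ ρ g (extEm K L a) = extTw K L (χ g) j (extEm K L a')
  fix : ∀ j a, C j a → ∃ Δ : Subgroup Γ, Δ.FiniteIndex ∧
    ∀ g ∈ Δ, ρ g (extEm K L a) = extTw K L (χ g) j (extEm K L a)

variable {K L}

/-- The Tate classes of degree `2 j`: the elements of degree `2 j` on which the elements of a
subgroup of finite index act by the `j`-th power of the character. -/
def TateVec {Γ : Type} [Group Γ] {χ : Γ → L} {gr : ℕ → Submodule K A} {n : ℕ}
    {tr : A →ₗ[K] K} {C : ℕ → A → Prop} (G : GalAct K L χ gr n tr C) (j : ℕ)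
    (x : Ext K L A) : Prop :=
  InDeg K L gr (2 * j) x ∧ ∃ Δ : Subgroup Γ, Δ.FiniteIndex ∧
    ∀ g ∈ Δ, G.ρ g x = extTw K L (χ g) j x

end Pool.Agent.N132.Lit
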