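import Pool.Agent.N132.Lit.Defs
import Pool.Agent.N132.HT.Main
import Pool.Agent.Y121.AHS.Conv

/-!
# Comparison of the definitions
-/

open CategoryTheory AlgebraicGeometry TensorProduct

set_option autoImplicit false

universe u

namespace Pool.Agent.N132.Lit

open Pool.Agent.H914 Pool.Agent.H914.VarClass Pool.Agent.H914.VarClass.Obj
  Pool.Agent.H914.WeilCohomology Pool.Agent.Y121.AHS
open Pool.Agent.Y121
open Pool.Agent.Y133.Half (pw HasIndex)
open Pool.Agent.R920.MT (IsMotivated)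
open Pool.Agent.Y132.AH (GaloisData GalAlg)
open Pool.Agent.TH125.Gal (IsGaloisAct)

section Alg

variable {K L A : Type} [Field K] [Field L] [Algebra K L] [Ring A] [Algebra K A] {Γ : Type}
  [Group Γ] {χ : Γ → L} {gr : ℕ → Submodule K A} {n : ℕ} {tr : A →ₗ[K] K} {C : ℕ → A → Prop}
  (G : GalAct K L χ gr n tr C)

theorem act_inv (g : Γ) (x : Ext K L A) : G.ρ g (G.ρ g⁻¹ x) = x := by
  rw [← G.mul, mul_inv_cancel, G.one]

theorem act_inv' (g : Γ) (x : Ext K L A) : G.ρ g⁻¹ (G.ρ g x) = x := by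
  rw [← G.mul, inv_mul_cancel, G.one]

/-- The ring isomorphism given by an element of the group. -/
noncomputable def toR (g : Γ) : (L ⊗[K] A) ≃+* (L ⊗[K] A) where
  toFun := G.ρ g
  invFun := G.ρ g⁻¹
  left_inv := act_inv' G g
  right_inv := act_inv G g
  map_mul' x y := G.prod g x y
  map_add' x y := G.add g x y

theorem toR_smul (g : Γ) (l : L) (x : L ⊗[K] A) : toR G g (l • x) = l • toR G g x := G.smul g l x

/-- The algebra isomorphism given by an element of the group. -/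
noncomputable def toA (g : Γ) : (L ⊗[K] A) ≃ₐ[L] (L ⊗[K] A) :=
  AlgEquiv.ofRingEquiv (f := toR G g) fun r => by
    rw [Algebra.algebraMap_eq_smul_one, toR_smul, map_one]

/-- The action. -/
noncomputable def toAct : Γ →* ((L ⊗[K] A) ≃ₐ[L] (L ⊗[K] A)) where
  toFun := toA G
  map_one' := AlgEquiv.ext fun x => G.one x
  map_mul' g h := AlgEquiv.ext fun x => G.mul g h x

end Alg

variable {k : Type u} [Field k] {𝒱 : VarClass k} {ops : CycleOps 𝒱}

section Conv

variable {W : WeilCohomology.{u, 0} ops} (F : GalFamily W) (a : F.J)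

/-- The character. -/
def chi : F.Γ a →* (F.L a)ˣ where
  toFun g := ⟨F.χ a g, F.χ a g⁻¹, by rw [← F.mul, mul_inv_cancel, F.one],
    by rw [← F.mul, inv_mul_cancel, F.one]⟩
  map_one' := Units.ext (F.one a)
  map_mul' g h := Units.ext (F.mul a g h)

/-- The character with values in the coefficients of the extended theory. -/
def chi' : F.Γ a →* (baseW W (F.L a)).Kˣ := chi F a

/-- The action on the cohomology of the extended theory. -/
noncomputable def toAct' (X : 𝒱.Obj) :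
    F.Γ a →* ((baseW W (F.L a)).H X ≃ₐ[(baseW W (F.L a)).K] (baseW W (F.L a)).H X) :=
  toAct (K := W.K) (L := F.L a) (A := W.H X) (F.R a X)

theorem galois (X : 𝒱.Obj) : IsGaloisAct (chi' F a) ((baseW W (F.L a)).gr X) X.dim
    ((baseW W (F.L a)).tr X) (algClasses (baseW W (F.L a)) X) (toAct' F a X) where
  gr_mem g i x hx := (F.R a X).deg g i x hx
  tr_act g x := (F.R a X).trace g x
  cl_act g j c hc := by
    obtain ⟨z, hz, rfl⟩ := hc
    obtain ⟨c', ⟨z', hz', rfl⟩, h⟩ := (F.R a X).conj g j _ ⟨z, hz, rfl⟩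
    exact ⟨_, ⟨z', hz', rfl⟩, h⟩
  cl_fix j c hc := by
    obtain ⟨z, hz, rfl⟩ := hc
    exact (F.R a X).fix j _ ⟨z, hz, rfl⟩

theorem act_map {X Y : 𝒱.Obj} (f : X ⟶ Y) (g : F.Γ a) (y : (baseW W (F.L a)).H Y) :
    toAct' F a X g ((baseW W (F.L a)).map f y) = (baseW W (F.L a)).map f (toAct' F a Y g y) := by
  have h1 := map_eq W (F.L a) f y
  have h2 := map_eq W (F.L a) f ((F.R a Y).ρ g y)
  have h3 := F.map a X Y f g y
  have h4 := congrArg (fun z => toAct' F a X g z) h1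
  exact h4.trans (h3.trans h2.symm)

/-- The conversion of the Galois actions. -/
noncomputable def toG : GaloisData (baseW W (F.L a)) (F.Γ a) where
  χ := chi' F a
  on X := ⟨toAct' F a X, galois F a X⟩
  isGalMap {X Y} f g y := act_map F a f g y

theorem isTate_iff (X : 𝒱.Obj) (j : ℕ) (x : (baseW W (F.L a)).H X) :
    Pool.Agent.Y132.AH.IsTate (toG F a) X j x ↔ IsTate F a X j x := Iff.rfl

end Conv

variable (T : HodgeTheory ops) (F : GalFamily T.W)

/-- The Galois actions for the converted Hodge theory. -/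
noncomputable def fam (a : F.J) : GaloisData (baseW (toH T).W (F.L a)) (F.Γ a) := toG F a

/-- **The main theorem.** -/
theorem main (X : 𝒱.Obj) [Nontrivial (T.W.H X)] :
    ∃ (N : ℕ) (H : ℕ∞) (t : F.J → ℕ∞), 1 ≤ N ∧ (H = N ∨ H = ⊤) ∧
    (∀ a, t a = N ∨ t a = ⊤) ∧
    HasIndex (fun n => hodgeDim T (pw X n)) (fun n => motDim T.W (pw X n)) H ∧
    (∀ a, HasIndex (fun n => tateDim F a (pw X n)) (fun n => motDim T.W (pw X n)) (t a)) ∧
    (H = 1 ↔ ∀ n, HodgeMotivated T (pw X n)) ∧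
    (∀ a, t a = 1 ↔ ∀ n, TateFrom F a (pw X n) (IsMotivated T.W (pw X n))) ∧
    (H ≠ ⊤ → ∀ n, HodgeIsTate F (pw X n)) ∧
    (∀ a, t a ≠ ⊤ → ∀ n, TateFrom F a (pw X n) (IsHodgeTate F (pw X n))) ∧
    (∀ a, H ≠ ⊤ → t a ≠ ⊤ → ∀ n, MumfordTateOn F a (pw X n)) := by
  have hnt : Nontrivial ((toH T).W.H X) := (inferInstance : Nontrivial (T.W.H X))
  obtain ⟨N, H, t, h1, h2, h3, h4, h5, h6, h7, h8, h9, h10⟩ :=
    HT.main (toH T) X F.emb (fam T F)
  refine ⟨N, H, t, h1, h2, h3, h4, h5, h6, h7, fun h n j c hc a => h8 h a n j c hc,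
    fun a h n j x hx => (h9 a h n j x).1 hx, fun a hH ht n => ⟨fun j x hx =>
      (h10 a hH ht n j x).1 hx, fun j c hc => h8 hH a n j c hc⟩⟩

end Pool.Agent.N132.Lit
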