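import Pool.Agent.Y121.AHS.Ext

/-!
# Comparison isomorphisms for one variety: definitions
-/

namespace Pool.Agent.N132.Lit

open Pool.Agent.Y121.AHS

variable {K K' : Type} [Field K] [Field K'] {A B : Type} [Ring A] [Algebra K A] [Ring B]
  [Algebra K' B]

/-- The element `a` is in the `i`-th graded piece. -/
def InPiece (gr : ℕ → Submodule K A) (i : ℕ) (a : A) : Prop := a ∈ gr i

variable (L : Type) [Field L] [Algebra K L] [Algebra K' L]

/-- The element `x` is in the `i`-th graded piece with coefficients extended to `L`. -/
def DegL (gr : ℕ → Submodule K A) (i : ℕ) (x : Ext K L A) : Prop := x ∈ extSub K L (gr i)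

/-- A comparison isomorphism, with coefficients in `L`, between two cohomology algebras of a variety
of dimension `n`: it is linear and multiplicative, it respects the gradings, and the orientations
and the two classes of a cycle of codimension `j` (the relation `C j`) up to powers of the
constant `c`. -/
structure CmpAlg (gr : ℕ → Submodule K A) (gr' : ℕ → Submodule K' B) (n : ℕ) (tr : A →ₗ[K] K)
    (tr' : B →ₗ[K'] K') (C : ℕ → A → B → Prop) (c : L) where
  /-- the isomorphism -/
  e : Ext K L A → Ext K' L B
  bij : Function.Bijective e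
  add : ∀ x y, e (x + y) = e x + e y
  smul : ∀ l x, e (extSm K L l x) = extSm K' L l (e x)
  mul : ∀ x y, e (extMul K L x y) = extMul K' L (e x) (e y)
  deg : ∀ i x, DegL L gr' i (e x) ↔ DegL L gr i x
  cyc : ∀ j a b, C j a b → e (extEm K L a) = extTw K' L c j (extEm K' L b)
  trace : ∀ x, extForm K' L tr' (e x) = c ^ n * extForm K L tr x

variable {L}

/-- The element `a` is mapped to `c ^ j b` for some `b`. -/
def Rational {gr : ℕ → Submodule K A} {gr' : ℕ → Submodule K' B} {n : ℕ} {tr : A →ₗ[K] K}
    {tr' : B →ₗ[K'] K'} {C : ℕ → A → B → Prop} {c : L} (M : CmpAlg L gr gr' n tr tr' C c) (j : ℕ)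
    (a : A) : Prop :=
  ∃ b : B, M.e (extEm K L a) = extTw K' L c j (extEm K' L b)

end Pool.Agent.N132.Lit
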