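import Pool.Agent.N132.Lit.DRDefs
import Pool.Agent.N132.DR.Main
import Pool.Agent.Y121.AHS.Conv

/-!
# Comparison of the definitions
-/

open CategoryTheory AlgebraicGeometry TensorProduct

set_option autoImplicit false

universe u

namespace Pool.Agent.N132.Lit

open Pool.Agent.H914 Pool.Agent.H914.VarClass Pool.Agent.H914.VarClass.Obj
  Pool.Agent.H914.WeilCohomology Pool.Agent.Y121.AHS
open Pool.Agent.Y133.Half (pw HasIndex)
open Pool.Agent.R920.MT (IsMotivated IsSystem Property isSystem_hodge)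

variable {k : Type u} [Field k] {𝒱 : VarClass k} {ops : CycleOps 𝒱} {T : HodgeTheory ops}

/-- The conversion of the comparison isomorphisms. -/
noncomputable def toCmp (D : DeRham T) : Comparison T.W D.V ℂ where
  s := RingEquiv.refl ℂ
  c := D.c
  ne := D.ne
  e X := (D.cmp X).e
  iso X := ⟨(D.cmp X).bij, (D.cmp X).add, (D.cmp X).mul⟩
  semi X l x := (D.cmp X).smul l x
  gr X i x := (D.cmp X).deg i x
  nat X Y f b := D.nat X Y f b
  cyc X j z hz := (D.cmp X).cyc j _ _ ⟨z, hz, rfl, rfl⟩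
  tr X a := (D.cmp X).trace a

/-- The conversion of the de Rham theories. -/
noncomputable def toDR (D : DeRham T) : DR.DeRham (toH T) where
  V := D.V
  closed := D.closed
  alg := D.alg
  cmp := toC (toCmp D)
  lin _ := rfl

theorem isDRB_iff (D : DeRham T) (X : 𝒱.Obj) (j : ℕ) (x : T.W.H X) :
    DR.IsDRB (toDR D) X j x ↔ IsDRB D X j x := Iff.rfl

/-- **The main theorem.** -/
theorem mainDR (D : DeRham T) (X : 𝒱.Obj) [Nontrivial (T.W.H X)] :
    ClassSystem (IsHodge T) ∧ ClassSystem (IsDRB D) ∧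
    ∃ (N : ℕ) (I : Property T.W → ℕ∞), 1 ≤ N ∧
      (I (IsHodge T) = N ∨ I (IsHodge T) = ⊤) ∧ (I (IsDRB D) = N ∨ I (IsDRB D) = ⊤) ∧
      ∀ R : Property T.W, ClassSystem R →
        HasIndex (fun n => sysDim R (pw X n)) (fun n => sysDim (IsMotivated T.W) (pw X n)) (I R) ∧
        (I R = 1 ↔ ∀ n, SubOn (pw X n) R (IsMotivated T.W)) ∧
        (I R ≠ ⊤ → I R ∣ I (IsHodge T) ∧ I R ∣ I (IsDRB D) ∧
          ∀ n, SubOn (pw X n) R (IsHodge T) ∧ SubOn (pw X n) R (IsDRB D)) := by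
  classical
  have hnt : Nontrivial ((toH T).W.H X) := (inferInstance : Nontrivial (T.W.H X))
  obtain ⟨⟨N, H, B, h1, h2, h3, h4, h5, h6, h7, h8, h9⟩, h10⟩ := DR.main (toDR D) X
  have hH : ClassSystem (IsHodge T) := ⟨isSystem_hodge (toH T), fun _ _ _ h => h.1⟩
  have hB : ClassSystem (IsDRB D) := ⟨DR.isSystem_drb (toDR D), fun _ _ _ h => h.1⟩
  choose I hI using fun R : {R : Property T.W // ClassSystem R} => h10 R.1 R.2.1 R.2.2
  have eH : I ⟨_, hH⟩ = H := by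
    have h := tendsto_nhds_unique (hI ⟨_, hH⟩).2.1 h4
    exact_mod_cast h
  have eB : I ⟨_, hB⟩ = B := by
    have h := tendsto_nhds_unique (hI ⟨_, hB⟩).2.1 h5
    exact_mod_cast h
  have key : ∀ R, ∀ h : ClassSystem R,
      (fun R => if h : ClassSystem R then I ⟨R, h⟩ else 1) R = I ⟨R, h⟩ := fun R h => dif_pos h
  refine ⟨hH, hB, N, fun R => if h : ClassSystem R then I ⟨R, h⟩ else 1, h1, ?_, ?_, ?_⟩
  · rw [key _ hH, eH]; exact h2
  · rw [key _ hB, eB]; exact h3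
  · intro R hR
    rw [key _ hR, key _ hH, key _ hB]
    obtain ⟨a0, a1, a2, a3⟩ := hI ⟨R, hR⟩
    exact ⟨a1, a2, fun h =>
      ⟨DR.ind_dvd (T := toH T) X hR.1 hR.2 hH.1 hH.2 (fun n j c hc => (a3 h n j c hc).1)
          (fun n j c hc => (a3 h n j c hc).1) a0 a1 (hI ⟨_, hH⟩).2.1 h,
        DR.ind_dvd (T := toH T) X hR.1 hR.2 hB.1 hB.2 (fun n j c hc => (a3 h n j c hc).1)
          (fun n j c hc => (a3 h n j c hc).2) a0 a1 (hI ⟨_, hB⟩).2.1 h,
        fun n => ⟨fun j c hc => (a3 h n j c hc).1, fun j c hc => (a3 h n j c hc).2⟩⟩⟩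

end Pool.Agent.N132.Lit
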