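import Pool.Agent.Y121.AHS.Defs
import Pool.Agent.R920.MT.Defs
import Pool.Agent.N132.Lit.DRAlg

/-!
# Algebraic de Rham cohomology and de Rham-Betti classes: definitions

In the intended use `k` is an algebraically closed subfield of the field of complex numbers, the
varieties are the smooth projective ones, `T` is the cohomology of the complex manifolds with
rational coefficients with its Hodge decomposition, and `V` is the algebraic de Rham cohomology.
-/

open CategoryTheory AlgebraicGeometry

universe u

namespace Pool.Agent.N132.Lit

open Pool.Agent.H914 Pool.Agent.H914.VarClass Pool.Agent.H914.VarClass.Obj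
  Pool.Agent.H914.WeilCohomology Pool.Agent.Y121.AHS
open Pool.Agent.R920.MT (IsSystem Property)
open Pool.Agent.Y133.Half (dimOf)

variable {k : Type u} [Field k] {𝒱 : VarClass k} {ops : CycleOps 𝒱}

/-- The classes `a` and `b` are the classes of the same algebraic cycle of codimension `j`. -/
def SameCycle (W V : WeilCohomology.{u, 0} ops) (X : 𝒱.Obj) (j : ℕ) (a : W.H X) (b : V.H X) :
    Prop :=
  ∃ z, X.IsCyc j z ∧ W.cl X z = a ∧ V.cl X z = b

/-- A comparison isomorphism for the cohomology of `X` with complex coefficients. -/
abbrev CmpOn (W V : WeilCohomology.{u, 0} ops) [Algebra W.K ℂ] [Algebra V.K ℂ] (c : ℂ)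
    (X : 𝒱.Obj) : Type :=
  CmpAlg ℂ (W.gr X) (V.gr X) X.dim (W.tr X) (V.tr X) (SameCycle W V X) c

/-- The algebraic de Rham cohomology: a Weil cohomology theory `V` with coefficients in an
algebraically closed field with an embedding into the field of complex numbers, and the comparison
(period) isomorphisms of the singular cohomology and `V` with complex coefficients, which are
compatible with pull-backs (`c = (2 π i)⁻¹`). -/
structure DeRham (T : HodgeTheory ops) where
  /-- the de Rham cohomology -/
  V : WeilCohomology.{u, 0} ops
  [closed : IsAlgClosed V.K]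
  [alg : Algebra V.K ℂ]
  /-- the constant -/
  c : ℂ
  ne : c ≠ 0
  /-- the comparison isomorphisms -/
  cmp : ∀ X : 𝒱.Obj, CmpOn T.W V c X
  nat : ∀ (X Y : 𝒱.Obj) (f : X ⟶ Y) (y : HL T.W ℂ Y), (cmp X).e (mapL f y) = mapL f ((cmp Y).e y)

attribute [instance] DeRham.closed DeRham.alg

/-- The de Rham-Betti classes of degree `2 j`: the classes `x` with rational coefficients such that
`(2 π i) ^ j x` is the image of a class of the algebraic de Rham cohomology. -/
def IsDRB {T : HodgeTheory ops} (D : DeRham T) (X : 𝒱.Obj) (j : ℕ) (x : T.W.H X) : Prop :=
  InPiece (T.W.gr X) (2 * j) x ∧ Rational (D.cmp X) j x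

variable {W : WeilCohomology.{u, 0} ops} (R : Property W)

/-- A system of classes: `R X j` is a space of classes of degree `2 j` on `X` which contains the
classes of the algebraic cycles; these spaces are stable under products, pull-backs, push-forwards
and the inverse Lefschetz operators. -/
def ClassSystem : Prop := IsSystem R ∧ ∀ X j c, R X j c → InPiece (W.gr X) (2 * j) c

/-- The dimension of the space spanned by the classes of all degrees on `X` in the system. -/
noncomputable def sysDim (X : 𝒱.Obj) : ℕ := dimOf W {c : W.H X | ∃ j, R X j c}

variable {R}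

/-- All classes on `X` in the system `R` are in the system `R'`. -/
def SubOn (X : 𝒱.Obj) (R R' : Property W) : Prop := ∀ j c, R X j c → R' X j c

end Pool.Agent.N132.Lit
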