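import Pool.Agent.Y121.AHS.Defs
import Pool.Agent.R920.MT.Defs
import Pool.Agent.N132.Lit.Alg

/-!
# Galois actions and Tate classes: definitions

In the intended use `W` is the cohomology of the complex manifolds `X(ℂ)` with rational coefficients
for the smooth projective varieties `X` over a finitely generated subfield of `ℂ`, `L = ℚ_ℓ`, and
`L ⊗ H(X)` is the `ℓ`-adic cohomology, with the action of the Galois group `Γ`.
-/

open CategoryTheory AlgebraicGeometry

universe u

namespace Pool.Agent.N132.Lit

open Pool.Agent.H914 Pool.Agent.H914.VarClass Pool.Agent.H914.VarClass.Obj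
  Pool.Agent.H914.WeilCohomology Pool.Agent.Y121.AHS
open Pool.Agent.R920.MT (IsMotivated)
open Pool.Agent.Y133.Half (dimOf)

variable {k : Type u} [Field k] {𝒱 : VarClass k} {ops : CycleOps 𝒱}

/-- The class `c` is the class of an algebraic cycle of codimension `j`. -/
def IsCycCl (W : WeilCohomology.{u, 0} ops) (X : 𝒱.Obj) (j : ℕ) (c : W.H X) : Prop :=
  ∃ z, X.IsCyc j z ∧ W.cl X z = c

/-- The formal properties of the Galois action on the cohomology of `X` with coefficients in `L`. -/
abbrev GalOn (W : WeilCohomology.{u, 0} ops) (L : Type) [Field L] [Algebra W.K L] {Γ : Type}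
    [Group Γ] (χ : Γ → L) (X : 𝒱.Obj) : Type :=
  GalAct W.K L χ (W.gr X) X.dim (W.tr X) (IsCycCl W X)

/-- A family of Galois actions: for each index `a` (a prime number `ℓ`) a field `L a` of coefficients
which can be embedded into the complex numbers, a group `Γ a` with a character `χ a` and actions on
the cohomology of all varieties with coefficients extended to `L a`, compatible with pull-backs. -/
structure GalFamily (W : WeilCohomology.{u, 0} ops) where
  /-- the indices -/
  J : Type
  /-- the fields -/
  L : J → Type
  [field : ∀ a, Field (L a)]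
  [alg : ∀ a, Algebra W.K (L a)]
  emb : ∀ a, Nonempty (L a →+* ℂ)
  /-- the groups -/
  Γ : J → Type
  [grp : ∀ a, Group (Γ a)]
  /-- the characters -/
  χ : ∀ a, Γ a → L a
  one : ∀ a, χ a 1 = 1
  mul : ∀ a g h, χ a (g * h) = χ a g * χ a h
  /-- the actions -/
  R : ∀ a X, GalOn W (L a) (χ a) X
  map : ∀ a (X Y : 𝒱.Obj) (f : X ⟶ Y) g y, (R a X).ρ g (mapL f y) = mapL f ((R a Y).ρ g y)

attribute [instance] GalFamily.field GalFamily.alg GalFamily.grp

section Classes

variable {W : WeilCohomology.{u, 0} ops} (F : GalFamily W) (a : F.J) (X : 𝒱.Obj)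

/-- The Tate classes of degree `2 j` with index `a`. -/
def IsTate (j : ℕ) (x : HL W (F.L a) X) : Prop := TateVec (F.R a X) j x

/-- The rational Tate classes of degree `2 j` with index `a`. -/
def IsRatTate (j : ℕ) (c : W.H X) : Prop := IsTate F a X j (emL W (F.L a) c)

/-- The dimension of the space spanned by the Tate classes of all degrees. -/
noncomputable def tateDim : ℕ := spanDim W.K (F.L a) fun x => ∃ j, IsTate F a X j x

/-- The dimension of the space spanned by the motivated classes of all degrees. -/
noncomputable def motDim (W : WeilCohomology.{u, 0} ops) (X : 𝒱.Obj) : ℕ :=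
  dimOf W {c : W.H X | ∃ j, IsMotivated W X j c}

/-- The Tate classes on `X` with the index `a` of degree `2 j`, for all `j`, are linear combinations
of rational classes with the property `p j`. -/
def TateFrom (p : ℕ → W.H X → Prop) : Prop := ∀ j x, IsTate F a X j x → Comb W.K (F.L a) (p j) x

end Classes

variable {T : HodgeTheory ops} (F : GalFamily T.W)

/-- All Hodge classes on `X` are motivated. -/
def HodgeMotivated (T : HodgeTheory ops) (X : 𝒱.Obj) : Prop :=
  ∀ j c, IsHodge T X j c → IsMotivated T.W X j c

/-- All Hodge classes on `X` are Tate classes, for all indices. -/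
def HodgeIsTate (X : 𝒱.Obj) : Prop := ∀ j c, IsHodge T X j c → ∀ a, IsRatTate F a X j c

/-- The rational class `c` is a Hodge class and a Tate class for all indices. -/
def IsHodgeTate (X : 𝒱.Obj) (j : ℕ) (c : T.W.H X) : Prop :=
  IsHodge T X j c ∧ ∀ b, IsRatTate F b X j c

/-- The Mumford-Tate conjecture for the classes on `X` for the index `a`: the Tate classes are
linear combinations of Hodge classes, and the Hodge classes are Tate classes. -/
def MumfordTateOn (a : F.J) (X : 𝒱.Obj) : Prop :=
  TateFrom F a X (IsHodge T X) ∧ ∀ j c, IsHodge T X j c → IsRatTate F a X j c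

end Pool.Agent.N132.Lit
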