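import Mathlib

/-!
# The rank modulo numerical equivalence: definition
-/

namespace Pool.Agent.N132.Lit

variable {K : Type} [Field K] {A : Type} [Ring A] [Algebra K A]

/-- The dimension of the span of `S` modulo the elements which are orthogonal to `S` for the form
`tr (x y)`. -/
noncomputable def numRk (tr : A →ₗ[K] K) (S : Set A) : ℕ :=
  Set.finrank K S - Set.finrank K {x | x ∈ Submodule.span K S ∧ ∀ s ∈ S, tr (x * s) = 0}

end Pool.Agent.N132.Lit
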