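import Pool.Agent.N132.Lit.TIDefs
import Pool.Agent.N132.Lit.Conv
import Pool.Agent.N132.TI.Main
import Pool.Agent.Y133.Half.TateSS

/-!
# Comparison of the definitions
-/

open CategoryTheory AlgebraicGeometry TensorProduct

set_option autoImplicit false

universe u

namespace Pool.Agent.N132.Lit

open Pool.Agent.H914 Pool.Agent.H914.VarClass Pool.Agent.H914.VarClass.Obj
  Pool.Agent.H914.WeilCohomology Pool.Agent.Y121.AHS
open Pool.Agent.Y133.Half (pw HasIndex cycRank numDim numDim_eq numDim_eq_cycRank numTrivial OrthAlg algSet)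

variable {k : Type u} [Field k] {𝒱 : VarClass k} {ops : CycleOps 𝒱}

theorem cycDim_eq (W : WeilCohomology.{u, 0} ops) (Z : 𝒱.Obj) :
    cycDim W Z = cycRank ops Z := by
  rw [← numDim_eq_cycRank W Z, ← numDim_eq]
  have h : {x | x ∈ Submodule.span W.K {c | ∃ j, IsCycCl W Z j c} ∧
      ∀ s ∈ {c | ∃ j, IsCycCl W Z j c}, W.tr Z (x * s) = 0} = numTrivial W Z := by
    ext x
    constructor
    · rintro ⟨h1, h2⟩
      exact ⟨h1, fun j z hz => h2 _ ⟨j, z, hz, rfl⟩⟩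
    · rintro ⟨h1, h2⟩
      refine ⟨h1, ?_⟩
      rintro _ ⟨j, z, hz, rfl⟩
      exact h2 j z hz
  unfold cycDim numRk
  rw [h]
  rfl

/-- **The main theorem.** -/
theorem mainTI (T : HodgeTheory ops) (F : GalFamily T.W) (X : 𝒱.Obj) [Nontrivial (T.W.H X)] :
    ∃ (N : ℕ) (H : ℕ∞) (t : F.J → ℕ∞), 1 ≤ N ∧ (H = N ∨ H = ⊤) ∧ (∀ a, t a = N ∨ t a = ⊤) ∧
      HasIndex (fun n => hodgeDim T (pw X n)) (fun n => cycDim T.W (pw X n)) H ∧
      (∀ a, HasIndex (fun n => tateDim F a (pw X n)) (fun n => cycDim T.W (pw X n)) (t a)) ∧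
      (∀ a, t a = 1 ↔ ∀ n, HomEqNum T.W (pw X n) ∧
        TateFrom F a (pw X n) (IsCycCl T.W (pw X n))) ∧
      (H ≠ ⊤ → ∀ n, HomEqNum T.W (pw X n) ∧ AllB T.W (pw X n) ∧ HodgeIsTate F (pw X n)) ∧
      (∀ a, t a ≠ ⊤ → ∀ n, HomEqNum T.W (pw X n) ∧ AllB T.W (pw X n) ∧
        TateFrom F a (pw X n) (IsHodgeTate F (pw X n))) := by
  have hnt : Nontrivial ((toH T).W.H X) := (inferInstance : Nontrivial (T.W.H X))
  obtain ⟨N, H, t, h1, h2, h3, h4, h5, h6, h7, h8⟩ := TI.main (toH T) X F.emb (fam T F)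
  have hr : (fun n => cycRank ops (pw X n)) = fun n => cycDim T.W (pw X n) :=
    funext fun n => (cycDim_eq T.W (pw X n)).symm
  rw [hr] at h4
  simp only [hr] at h5
  refine ⟨N, H, t, h1, h2, h3, h4, h5, fun a => (h6 a).trans (forall_congr' fun n => and_comm),
    fun h n => ⟨(h7 h n).1, (h7 h n).2.1, fun j c hc a => (h7 h n).2.2 a j c hc⟩,
    fun a h n => ⟨(h8 a h n).1, (h8 a h n).2.1, fun j x hx => ((h8 a h n).2.2 j x).1 hx⟩⟩

end Pool.Agent.N132.Lit
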