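import Pool.Agent.N132.Lit.Defs
import Pool.Agent.N132.Lit.NumAlg
import Pool.Agent.H914R2.KDefs

/-!
# The standard conjecture of Lefschetz type and the rank of the cycles: definitions
-/

open CategoryTheory AlgebraicGeometry

universe u

namespace Pool.Agent.N132.Lit

open Pool.Agent.H914 Pool.Agent.H914.VarClass Pool.Agent.H914.VarClass.Obj
  Pool.Agent.H914.WeilCohomology

variable {k : Type u} [Field k] {𝒱 : VarClass k} {ops : CycleOps 𝒱}

/-- The rank of the group of the algebraic cycles on `X` modulo numerical equivalence: the dimension
of the span of the classes of the cycles, modulo the elements orthogonal to these classes. -/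
noncomputable def cycDim (W : WeilCohomology.{u, 0} ops) (X : 𝒱.Obj) : ℕ :=
  numRk (W.tr X) {c | ∃ j, IsCycCl W X j c}

/-- The standard conjecture of Lefschetz type for `X`, for all divisors satisfying the hard Lefschetz
theorem. -/
def AllB (W : WeilCohomology.{u, 0} ops) (X : 𝒱.Obj) : Prop :=
  ∀ D : X.Cycles, X.IsCyc 1 D → HardLefschetz W X D → LefschetzB W X D

end Pool.Agent.N132.Lit
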